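import Mathlib
import Pool.Agent.N662.FP.Stm

set_option autoImplicit false

/-!
# Project FL, leaf TI (helper390): translation invariance of the mean passage time
-/

open MeasureTheory ProbabilityTheory Filter Set

namespace Pool.Agent.N390.FL.TI

open Pool.Agent.N662.FP

/-- the translation of the edges -/
def sg (a : ℤ × ℤ) (e : Sym2 (ℤ × ℤ)) : Sym2 (ℤ × ℤ) := Sym2.map (fun z => a + z) e

theorem sg_inj (a : ℤ × ℤ) : Function.Injective (sg a) :=
  Sym2.map.injective (add_right_injective a)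

theorem PS_shift (x : Sym2 (ℤ × ℤ) → ℝ) (a v : ℤ × ℤ) :
    PS x a (a + v) = PS (fun e => x (sg a e)) 0 v := by
  ext s
  constructor
  · rintro ⟨n, p, h0, h1, h2, h3⟩
    refine ⟨n, fun i => p i - a, ?_, ?_, fun i hi => ?_, ?_⟩
    · show p 0 - a = 0
      rw [h0, sub_self]
    · show p n - a = v
      rw [h1, add_sub_cancel_left]
    · have h4 := h2 i hi
      simp only [Prod.fst_sub, Prod.snd_sub, sub_sub_sub_cancel_right]
      exact h4
    · rw [h3]
      refine Finset.sum_congr rfl fun i _ => ?_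
      show x s(p i, p (i + 1)) = x s(a + (p i - a), a + (p (i + 1) - a))
      rw [add_sub_cancel, add_sub_cancel]
  · rintro ⟨n, p, h0, h1, h2, h3⟩
    refine ⟨n, fun i => a + p i, ?_, ?_, fun i hi => ?_, ?_⟩
    · show a + p 0 = a
      rw [h0, add_zero]
    · show a + p n = a + v
      rw [h1]
    · have h4 := h2 i hi
      simp only [Prod.fst_add, Prod.snd_add, add_sub_add_left_eq_sub]
      exact h4
    · rw [h3]
      rfl

theorem D_shift (x : Sym2 (ℤ × ℤ) → ℝ) (a v : ℤ × ℤ) :
    D x a (a + v) = D (fun e => x (sg a e)) 0 v := by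
  unfold D
  rw [PS_shift]

theorem t_TI (h1 : S_ME) (h2 : S_AE) : S_TI := by
  intro Ω _ _ X hX a v
  have hm := h1 0 v
  set Φ : (Sym2 (ℤ × ℤ) → ℝ) → ℝ := fun x => D (fun e => max (x e) 0) 0 v with hΦ
  have hae := h2 Ω X hX
  -- both sides through `Φ`
  have e1 : ∫ ω, D (env X ω) a (a + v) ∂(volume : Measure Ω) =
      ∫ ω, Φ (fun e => X (sg a e) ω) ∂(volume : Measure Ω) := by
    refine integral_congr_ae ?_
    filter_upwards [hae] with ω hω
    rw [D_shift]
    show D _ 0 v = D _ 0 v
    congr 1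
    funext e
    exact (max_eq_left (hω (sg a e))).symm
  have e2 : ∫ ω, D (env X ω) 0 v ∂(volume : Measure Ω) =
      ∫ ω, Φ (fun e => X e ω) ∂(volume : Measure Ω) := by
    refine integral_congr_ae ?_
    filter_upwards [hae] with ω hω
    show D _ 0 v = D _ 0 v
    congr 1
    funext e
    exact (max_eq_left (hω e)).symm
  have m1 : Measurable (fun ω (e : Sym2 (ℤ × ℤ)) => X (sg a e) ω) :=
    measurable_pi_iff.2 fun e => hX.meas _
  have m2 : Measurable (fun ω (e : Sym2 (ℤ × ℤ)) => X e ω) := measurable_pi_iff.2 fun e => hX.meas e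
  have l1 : Measure.map (fun ω (e : Sym2 (ℤ × ℤ)) => X (sg a e) ω) (volume : Measure Ω) =
      Measure.infinitePi (fun _ : Sym2 (ℤ × ℤ) => expMeasure 1) := by
    have h3 : iIndepFun (fun e => X (sg a e)) (volume : Measure Ω) := hX.ind.precomp (sg_inj a)
    have h4 := (iIndepFun_iff_map_fun_eq_infinitePi_map (fun e => hX.meas (sg a e))).1 h3
    rw [h4]
    congr 1
    funext e
    exact hX.law _
  have l2 : Measure.map (fun ω (e : Sym2 (ℤ × ℤ)) => X e ω) (volume : Measure Ω) =
      Measure.infinitePi (fun _ : Sym2 (ℤ × ℤ) => expMeasure 1) := by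
    have h4 := (iIndepFun_iff_map_fun_eq_infinitePi_map hX.meas).1 hX.ind
    rw [h4]
    congr 1
    funext e
    exact hX.law _
  rw [e1, e2, ← integral_map (f := Φ) m1.aemeasurable hm.aestronglyMeasurable,
    ← integral_map (f := Φ) m2.aemeasurable hm.aestronglyMeasurable, l1, l2]

end Pool.Agent.N390.FL.TI
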